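import Pool.Agent.Y328.CR.Pow

/-! The family of countable groups. -/

set_option autoImplicit false

open Set Filter Topology Function
open scoped ContDiff

namespace Pool.Agent.Y328.CR

open Pool.Agent.W331.CR

theorem countable_of_fg (G : Type*) [Group G] (h : Group.FG G) : Countable G := by
  obtain ⟨S, _, ρ, hρ⟩ := Group.fg_iff_exists_freeGroup_hom_surjective_finite.mp h
  exact hρ.countable

theorem fam : ∃ (G : ℝ → Type) (_ : ∀ s, Group (G s)),
    (∀ s, Countable (G s)) ∧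
    (∀ s (k : ℕ) (τ : ℝ), 1 ≤ k → 0 ≤ τ → τ < 1 →
      (∃ φ : G s →* (Icc (0:ℝ) 1 ≃o Icc (0:ℝ) 1), Injective φ ∧ ∀ g, φ g ∈ HolI k τ) ∧
      (∃ φ : G s →* Equiv.Perm (AddCircle (1:ℝ)), Injective φ ∧ ∀ g, φ g ∈ HolS k τ)) ∧
    (∀ s (H : Subgroup (G s)), H.FiniteIndex → ∃ z : H, z ≠ 1 ∧
      (∀ φ : H →* DiffI ∞, φ z = 1) ∧ ∀ φ : H →* DiffS ∞, φ z = 1) ∧
    (∀ s t, s ≠ t → ∀ (H : Subgroup (G s)) (H' : Subgroup (G t)), H.FiniteIndex →
      H'.FiniteIndex → IsEmpty (H ≃* H')) ∧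
    (∀ (K : Type) [Group K] [Countable K], {s | ∃ ψ : G s →* K, Injective ψ}.Countable) := by
  classical
  obtain ⟨G, hG, hfg, hemb, hkill, hcnt⟩ := fgFam
  have hc : ∀ s, Countable (RP (G s)) := by
    intro s
    have := countable_of_fg (G s) (hfg s)
    exact countable_RP (G s)
  have hone : ∀ s, ∃ ψ : G s →* RP (G s), Injective ψ :=
    fun s => ⟨diag (G s) {0}, diag_injective (by simp)⟩
  obtain ⟨σ, hσ, hσ2⟩ := select
    (fun s t => ∃ (H : Subgroup (RP (G s))) (H' : Subgroup (RP (G t))), H.FiniteIndex ∧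
      H'.FiniteIndex ∧ Nonempty (H ≃* H'))
    (by
      rintro s t ⟨H, H', h1, h2, ⟨e⟩⟩
      exact ⟨H', H, h2, h1, ⟨e.symm⟩⟩)
    (by
      intro t
      have := hc t
      refine (hcnt (RP (G t))).mono ?_
      rintro s ⟨H, H', h1, h2, ⟨e⟩⟩
      obtain ⟨T, hT, hd⟩ := exists_diag (G s) (hfg s) H h1
      refine ⟨(H'.subtype.comp e.toMonoidHom).comp ((diag (G s) T).codRestrict H hd), ?_⟩
      have i1 : Injective ((diag (G s) T).codRestrict H hd) := fun x y h =>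
        diag_injective hT (congrArg Subtype.val h)
      exact (Subtype.coe_injective.comp e.injective).comp i1)
  refine ⟨fun x => RP (G (σ x)), fun x => inferInstance, fun x => hc _, ?_, ?_, ?_, ?_⟩
  · intro x k τ hk h3 h4
    obtain ⟨φ, hφ⟩ := emb_RP (k + 1) (hemb (σ x) (k + 1))
    obtain ⟨ψ, hψ⟩ := csI s_toI ((k + 1 : ℕ) : WithTop ℕ∞)
    obtain ⟨χ, hχ⟩ := csS s_toS ((k + 1 : ℕ) : WithTop ℕ∞)
    refine ⟨⟨(DiffI _).subtype.comp (ψ.comp φ), Subtype.coe_injective.comp (hψ.comp hφ),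
        fun g => ?_⟩,
      ⟨(DiffS _).subtype.comp (χ.comp φ), Subtype.coe_injective.comp (hχ.comp hφ), fun g => ?_⟩⟩
    · exact diffI_hol k τ h3 h4 _ (ψ (φ g)).2
    · exact diffS_hol k hk τ h3 h4 _ (χ (φ g)).2
  · intro x H hH
    obtain ⟨T, hT, hd⟩ := exists_diag (G (σ x)) (hfg _) H hH
    obtain ⟨y, hy, hI, hS⟩ := hkill (σ x)
    let δ : G (σ x) →* H := (diag (G (σ x)) T).codRestrict H hd
    refine ⟨δ y, ?_, fun φ => hI (φ.comp δ), fun φ => hS (φ.comp δ)⟩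
    intro h
    apply hy
    have h1 : diag (G (σ x)) T y = 1 := congrArg Subtype.val h
    rw [← map_one (diag (G (σ x)) T)] at h1
    exact diag_injective hT h1
  · intro x x' hx H H' hH hH'
    refine ⟨fun e => hσ2 x x' hx ⟨H, H', hH, hH', ⟨e⟩⟩⟩
  · intro K _ _
    have h1 : (σ ⁻¹' {s | ∃ ψ : G s →* K, Injective ψ}).Countable :=
      (hcnt K).preimage_of_injOn hσ.injOn
    refine h1.mono ?_
    rintro x ⟨ψ, hψ⟩
    obtain ⟨ι, hι⟩ := hone (σ x)
    exact ⟨ψ.comp ι, hψ.comp hι⟩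

end Pool.Agent.Y328.CR
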