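import Pool.Agent.W331.CR.All

/-! Continuum many groups of infinite critical regularity which are not smooth: tools.
The exponent sequence `e` of the relations `Rel84` is determined by the five elements, and the
element `y` is killed by every homomorphism to the smooth diffeomorphisms. -/

set_option autoImplicit false

open Set Filter Topology Function
open scoped ContDiff

namespace Pool.Agent.Y328.CR

open Pool.Agent.W331.CR

/-- the exponents are determined by the elements -/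
theorem det {G : Type*} [Group G] {e e' : ℕ → ℕ} {a b h y f : G}
    (H : Rel84 e a b h y f) (H' : Rel84 e' a b h y f)
    (hy : ∀ n : ℕ, 1 ≤ n → y ^ n ≠ 1) {j : ℕ} (hj : 1 ≤ j) : ¬ e j < e' j := by
  intro hlt
  obtain ⟨c1, c2, -⟩ := H.rf j 1 hj le_rfl _ _ rfl rfl
  obtain ⟨d1, -, -⟩ := H'.rf j 1 hj le_rfl _ _ rfl rfl
  generalize ((a ^ (Nat.factorial j) * b ^ (Nat.factorial j)) ^ 1)⁻¹ * f *
    (a ^ (Nat.factorial j) * b ^ (Nat.factorial j)) ^ 1 = F at c1 c2 d1
  obtain ⟨M, hM1, hM⟩ : ∃ M : ℕ, 1 ≤ M ∧ 2 ^ (e' j - e j) = M + 1 := by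
    have h1 : (2 : ℕ) ^ 1 ≤ 2 ^ (e' j - e j) := Nat.pow_le_pow_right (by norm_num) (by omega)
    exact ⟨2 ^ (e' j - e j) - 1, by omega, by omega⟩
  obtain ⟨c, hc⟩ : ∃ c, c = F ^ (2 ^ (e j * 1)) * y⁻¹ := ⟨_, rfl⟩
  rw [← hc] at c1 c2
  have hF : F ^ (2 ^ (e' j * 1)) = (c * y) ^ (M + 1) := by
    have h1 : c * y = F ^ (2 ^ (e j * 1)) := by rw [hc]; group
    rw [h1, ← hM, ← pow_mul, ← pow_add]
    congr 2
    omega
  have hx : F ^ (2 ^ (e' j * 1)) * y⁻¹ = c ^ (M + 1) * y ^ M := by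
    rw [hF, c2.mul_pow, mul_assoc, pow_succ y M, mul_assoc (y ^ M), mul_inv_cancel, mul_one]
  rw [hx] at d1
  have h2 : Commute (y ^ M) h := by
    have h3 : y ^ M = (c ^ (M + 1))⁻¹ * (c ^ (M + 1) * y ^ M) := by group
    rw [h3]
    exact ((c1.pow_left (M + 1)).inv_left).mul_left d1
  have h4 : h * y ^ M * h⁻¹ = y ^ (2 * M) := by
    rw [← conj_pow, H.r0, ← pow_mul]
  have h5 : h * y ^ M * h⁻¹ = y ^ M := by
    rw [h2.symm.eq, mul_inv_cancel_right]
  have h6 : y ^ (2 * M) = y ^ M := h4.symm.trans h5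
  rw [two_mul, pow_add] at h6
  exact hy M hM1 (mul_eq_left.1 h6)

/-- the exponent sequences -/
def E (e₀ s : ℕ → ℕ) : ℕ → ℕ := fun j => e₀ j + s (j - 1)

/-- a countable group satisfies the relations for countably many sequences only -/
theorem cntK (e₀ : ℕ → ℕ) (K : Type*) [Group K] [Countable K] :
    {s : ℕ → ℕ | ∃ a b h y f : K, Rel84 (E e₀ s) a b h y f ∧
      ∀ n : ℕ, 1 ≤ n → y ^ n ≠ 1}.Countable := by
  classical
  have h0 : ∀ s : {s : ℕ → ℕ | ∃ a b h y f : K, Rel84 (E e₀ s) a b h y f ∧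
      ∀ n : ℕ, 1 ≤ n → y ^ n ≠ 1}, ∃ t : K × K × K × K × K,
      Rel84 (E e₀ s.1) t.1 t.2.1 t.2.2.1 t.2.2.2.1 t.2.2.2.2 ∧
        ∀ n : ℕ, 1 ≤ n → t.2.2.2.1 ^ n ≠ 1 := by
    rintro ⟨s, a, b, h, y, f, h1, h2⟩
    exact ⟨(a, b, h, y, f), h1, h2⟩
  choose g hg using h0
  have hinj : Injective g := by
    intro s s' hs
    apply Subtype.ext
    funext i
    have h1 := (hg s).1
    have h2 := (hg s').1
    rw [← hs] at h2
    have a1 := det h1 h2 (hg s).2 (j := i + 1) (by omega)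
    have a2 := det h2 h1 (hg s).2 (j := i + 1) (by omega)
    simp only [E, Nat.add_sub_cancel] at a1 a2
    omega
  exact hinj.countable.to_set

/-- the element `y` is killed by every homomorphism to the smooth diffeomorphisms of the circle -/
theorem killS {e : ℕ → ℕ} {G : Type*} [Group G] {a b h y f : G} (H : Rel84 e a b h y f)
    (φ : G →* DiffS ∞) : φ y = 1 := by
  by_contra hne
  have h1 := NoI.map84 φ.rangeRestrict H
  refine s_no84S t_rigid84 s_liftcomm s_liftbs s_setupS e φ.range _ _ _ _ _ h1 ?_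
    ⟨φ.range.subtype, Subtype.coe_injective⟩
  intro h2
  exact hne (congrArg Subtype.val h2)

/-- the element `y` is killed by every homomorphism to the smooth diffeomorphisms of the
interval -/
theorem killI {e : ℕ → ℕ} {G : Type*} [Group G] {a b h y f : G} (H : Rel84 e a b h y f)
    (φ : G →* DiffI ∞) : φ y = 1 := by
  by_contra hne
  have h1 := NoI.map84 φ.rangeRestrict H
  refine s_no84I t_rigid84 s_setupI e φ.range _ _ _ _ _ h1 ?_
    ⟨φ.range.subtype, Subtype.coe_injective⟩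
  intro h2
  exact hne (congrArg Subtype.val h2)

/-- the group of order automorphisms of the line is torsion free -/
theorem tf {F : ℝ ≃o ℝ} (hF : F ≠ 1) (n : ℕ) (hn : 1 ≤ n) : F ^ n ≠ 1 := by
  have key : ∀ (F : ℝ ≃o ℝ) (x : ℝ), x < F x → ∀ n : ℕ, x < (F ^ (n + 1)) x := by
    intro F x hx n
    induction n with
    | zero => simpa using hx
    | succ n ih =>
      rw [pow_succ' F (n + 1), RelIso.mul_apply]
      exact hx.trans (F.strictMono ih)
  intro h1
  apply hF
  obtain ⟨m, rfl⟩ : ∃ m, n = m + 1 := ⟨n - 1, by omega⟩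
  ext x
  rcases lt_trichotomy x (F x) with h | h | h
  · have := key F x h m
    rw [h1] at this
    exact absurd this (lt_irrefl _)
  · exact h.symm
  · have h2 : x < (F⁻¹ : ℝ ≃o ℝ) x := by
      have h3 := (F⁻¹ : ℝ ≃o ℝ).strictMono h
      have h4 : (F⁻¹ : ℝ ≃o ℝ) (F x) = x := F.symm_apply_apply x
      rwa [h4] at h3
    have := key F⁻¹ x h2 m
    rw [inv_pow, h1, inv_one] at this
    exact absurd this (lt_irrefl _)

/-- the family of finitely generated groups -/
theorem base : ∃ (e₀ : ℕ → ℕ) (G : (ℕ → ℕ) → Type) (_ : ∀ s, Group (G s)), ∀ s,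
    Group.FG (G s) ∧ (∃ a b h y f : G s, Rel84 (E e₀ s) a b h y f ∧ ∀ n : ℕ, 1 ≤ n → y ^ n ≠ 1) ∧
    ∀ k : ℕ, ∃ φ : G s →* CS k, Injective φ := by
  obtain ⟨-, -, h, y, H, -⟩ := s_flataff
  have := fun k => t_emb h y H k
  choose Q hQ using this
  set e₀ : ℕ → ℕ := fun j => 1 + ∑ k ∈ Finset.range (j + 1), Q k j with he
  refine ⟨e₀, fun s => Gam h y (E e₀ s), fun s => inferInstance, fun s => ?_⟩
  set e : ℕ → ℕ := E e₀ s with hes
  obtain ⟨hr1, hr2⟩ := s_rel84 s_fTau h y H e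
  have mem : ∀ g ∈ ({gA, gB, gH h, gY y, gF y e} : Set (Equiv.Perm (Ix × ℝ))), g ∈ Gam h y e :=
    fun g hg => Subgroup.subset_closure hg
  have hk : ∀ k : ℕ, ∃ φ : Gam h y e →* CS k, Injective φ := by
    intro k
    refine hQ k e (fun j => ?_) (fun j hj => ?_)
    · simp only [hes, E, he]
      omega
    · have : Q k j ≤ ∑ k ∈ Finset.range (j + 1), Q k j :=
        Finset.single_le_sum (f := fun k => Q k j) (fun _ _ => Nat.zero_le _)
          (Finset.mem_range.2 (by omega))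
      simp only [hes, E, he]
      omega
  refine ⟨?_, ⟨⟨gA, mem _ (by simp)⟩, ⟨gB, mem _ (by simp)⟩,
    ⟨gH h, mem _ (by simp)⟩, ⟨gY y, mem _ (by simp)⟩, ⟨gF y e, mem _ (by simp)⟩, ?_, ?_⟩, hk⟩
  · rw [Group.fg_iff_subgroup_fg, Subgroup.fg_iff]
    exact ⟨_, rfl, by simp⟩
  · exact Rel84.of_map (Gam h y e).subtype Subtype.coe_injective hr1
  · intro n hn h1
    obtain ⟨φ, hφ⟩ := hk 0
    have h2 : ((φ ⟨gY y, mem _ (by simp)⟩ : CS (0 : ℕ)) : ℝ ≃o ℝ) ≠ 1 := by
      intro h3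
      have h4 : φ ⟨gY y, mem _ (by simp)⟩ = 1 := Subtype.ext h3
      rw [← map_one φ] at h4
      exact hr2 (congrArg Subtype.val (hφ h4))
    apply tf h2 n hn
    rw [← Subgroup.coe_pow, ← map_pow, h1, map_one]
    rfl

/-- the finitely generated version: a family indexed by sequences; a countable group contains
countably many of its members only -/
theorem fgFam : ∃ (G : (ℕ → ℕ) → Type) (_ : ∀ s, Group (G s)),
    (∀ s, Group.FG (G s)) ∧ (∀ s, ∀ k : ℕ, ∃ φ : G s →* CS k, Injective φ) ∧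
    (∀ s, ∃ y : G s, y ≠ 1 ∧ (∀ φ : G s →* DiffI ∞, φ y = 1) ∧ ∀ φ : G s →* DiffS ∞, φ y = 1) ∧
    (∀ (K : Type) [Group K] [Countable K], {s | ∃ ψ : G s →* K, Injective ψ}.Countable) := by
  obtain ⟨e₀, G, hG, H⟩ := base
  refine ⟨G, hG, fun s => (H s).1, fun s => (H s).2.2, fun s => ?_, fun K _ _ => ?_⟩
  · obtain ⟨-, ⟨a, b, h, y, f, h1, h2⟩, -⟩ := H s
    refine ⟨y, ?_, fun φ => killI h1 φ, fun φ => killS h1 φ⟩
    have := h2 1 le_rfl
    rwa [pow_one] at this
  · refine (cntK e₀ K).mono ?_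
    rintro s ⟨ψ, hψ⟩
    obtain ⟨-, ⟨a, b, h, y, f, h1, h2⟩, -⟩ := H s
    refine ⟨ψ a, ψ b, ψ h, ψ y, ψ f, NoI.map84 ψ h1, fun n hn h3 => ?_⟩
    rw [← map_pow, ← map_one ψ] at h3
    exact h2 n hn (hψ h3)

/-- a symmetric relation with countable neighbourhoods on the sequences has continuum many
pairwise unrelated elements -/
theorem select (R : (ℕ → ℕ) → (ℕ → ℕ) → Prop) (hsymm : ∀ s t, R s t → R t s)
    (hc : ∀ t, {s | R s t}.Countable) :
    ∃ σ : ℝ → (ℕ → ℕ), Injective σ ∧ ∀ x y, x ≠ y → ¬ R (σ x) (σ y) := by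
  classical
  -- the classes of the generated equivalence relation are countable
  let st : Setoid (ℕ → ℕ) := Relation.EqvGen.setoid R
  have hcl : ∀ t, ∃ C : Set (ℕ → ℕ), C.Countable ∧ t ∈ C ∧ ∀ s ∈ C, ∀ u, R u s → u ∈ C := by
    intro t
    let C : ℕ → Set (ℕ → ℕ) := fun n => Nat.rec {t} (fun _ D => ⋃ s ∈ D, {u | R u s}) n
    have h1 : ∀ n, (C n).Countable := by
      intro n
      induction n with
      | zero => exact countable_singleton t
      | succ n ih => exact ih.biUnion (fun s _ => hc s)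
    refine ⟨⋃ n, C n, countable_iUnion h1, mem_iUnion.2 ⟨0, rfl⟩, ?_⟩
    intro s hs u hu
    obtain ⟨n, hn⟩ := mem_iUnion.1 hs
    refine mem_iUnion.2 ⟨n + 1, ?_⟩
    exact mem_iUnion₂.2 ⟨s, hn, hu⟩
  have hcount : ∀ t, {s | Relation.EqvGen R s t}.Countable := by
    intro t
    obtain ⟨C, hC, ht, hcl⟩ := hcl t
    refine hC.mono ?_
    have key : ∀ s u, Relation.EqvGen R s u → (s ∈ C ↔ u ∈ C) := by
      intro s u h
      induction h with
      | rel x y h => exact ⟨fun hx => hcl x hx y (hsymm _ _ h), fun hy => hcl y hy x h⟩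
      | refl x => exact Iff.rfl
      | symm x y _ ih => exact ih.symm
      | trans x y z _ _ ih1 ih2 => exact ih1.trans ih2
    intro s hs
    exact (key s t hs).2 ht
  have hq : Cardinal.continuum ≤ Cardinal.mk (Quotient st) := by
    have h1 : Cardinal.mk (ℕ → ℕ) ≤ Cardinal.mk (Quotient st) * Cardinal.aleph0 := by
      refine Cardinal.mk_le_mk_mul_of_mk_preimage_le (Quotient.mk st) (fun q => ?_)
      induction q using Quotient.inductionOn with
      | h t =>
        have h2 : (Quotient.mk st ⁻¹' {Quotient.mk st t}) = {s | Relation.EqvGen R s t} := by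
          ext s
          simp only [mem_preimage, mem_singleton_iff, Set.mem_ofPred_eq]
          exact Quotient.eq (r := st)
        rw [h2]
        exact Cardinal.mk_le_aleph0_iff.2 (hcount t).to_subtype
    have h3 : Cardinal.mk (ℕ → ℕ) = Cardinal.continuum := by
      simp
    rw [h3] at h1
    by_contra h4
    push Not at h4
    have h5 : Cardinal.mk (Quotient st) * Cardinal.aleph0 < Cardinal.continuum :=
      Cardinal.mul_lt_of_lt Cardinal.aleph0_le_continuum h4 Cardinal.aleph0_lt_continuum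
    exact absurd h1 (not_le.2 h5)
  rw [← Cardinal.mk_real] at hq
  obtain ⟨g⟩ := Cardinal.le_def _ _ |>.1 hq
  refine ⟨fun x => (g x).out, fun x y hxy => ?_, fun x y hxy h => ?_⟩
  · have h1 : (g x).out = (g y).out := hxy
    have h2 : Quotient.mk st (g x).out = Quotient.mk st (g y).out := congrArg _ h1
    rw [Quotient.out_eq, Quotient.out_eq] at h2
    exact g.injective h2
  · apply hxy
    apply g.injective
    rw [← Quotient.out_eq (g x), ← Quotient.out_eq (g y)]
    exact Quotient.sound (s := st) (Relation.EqvGen.rel _ _ h)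

end Pool.Agent.Y328.CR
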