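import Pool.Agent.Y328.CR.Many

/-! Restricted direct powers: realisation by compactly supported diffeomorphisms, and diagonal
copies in subgroups of finite index. -/

set_option autoImplicit false

open Set Filter Topology Function
open scoped ContDiff

namespace Pool.Agent.Y328.CR

open Pool.Agent.W331.CR

/-- the restricted direct power of a group, indexed by the integers -/
def RP (G : Type*) [Group G] : Subgroup (ℤ → G) where
  carrier := {x | {n | x n ≠ 1}.Finite}
  one_mem' := by simp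
  mul_mem' := by
    intro x y hx hy
    refine (hx.union hy).subset ?_
    intro n hn
    by_contra h
    simp only [mem_union, mem_ofPred_eq, not_or, not_not] at h
    exact hn (by rw [Pi.mul_apply, h.1, h.2, one_mul])
  inv_mem' := by
    intro x hx
    simpa using hx

theorem countable_RP (G : Type*) [Group G] [Countable G] : Countable (RP G) := by
  have hfin : ∀ x : RP G, (Function.support (fun n => Additive.ofMul (x.1 n))).Finite := by
    intro x
    exact x.2
  have hinj : Injective (fun x : RP G =>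
      Finsupp.ofSupportFinite (fun n => Additive.ofMul (x.1 n)) (hfin x)) := by
    intro x y hxy
    apply Subtype.ext
    funext n
    have := DFunLike.congr_fun hxy n
    simpa [Finsupp.ofSupportFinite_coe] using this
  have : Countable (Additive G) := inferInstanceAs (Countable G)
  exact hinj.countable

/-- the diagonal in a finite set of coordinates -/
def diag (G : Type*) [Group G] (T : Finset ℤ) : G →* RP G where
  toFun g := ⟨fun n => if n ∈ T then g else 1, by
    refine (T.finite_toSet).subset ?_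
    intro n hn
    by_contra h
    exact hn (if_neg h)⟩
  map_one' := by
    apply Subtype.ext
    funext n
    simp
  map_mul' g h := by
    apply Subtype.ext
    funext n
    simp only [Subgroup.coe_mul, Pi.mul_apply]
    split_ifs <;> simp

theorem diag_apply {G : Type*} [Group G] (T : Finset ℤ) (g : G) (n : ℤ) :
    (diag G T g).1 n = if n ∈ T then g else 1 := rfl

theorem diag_injective {G : Type*} [Group G] {T : Finset ℤ} (hT : T.Nonempty) :
    Injective (diag G T) := by
  intro g h hgh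
  obtain ⟨n, hn⟩ := hT
  have := congrFun (congrArg Subtype.val hgh) n
  rwa [diag_apply, diag_apply, if_pos hn, if_pos hn] at this

theorem diag_insert {G : Type*} [Group G] {T : Finset ℤ} {n : ℤ} (hn : n ∉ T) (g : G) :
    diag G (insert n T) g = diag G {n} g * diag G T g := by
  apply Subtype.ext
  funext m
  rw [Subgroup.coe_mul, Pi.mul_apply, diag_apply, diag_apply, diag_apply]
  by_cases h1 : m = n
  · subst h1
    simp [hn]
  · by_cases h2 : m ∈ T <;> simp [h1, h2]

theorem finite_hom (G Q : Type*) [Group G] [Group Q] (hG : Group.FG G) [Finite Q] :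
    Finite (G →* Q) := by
  obtain ⟨S, hS⟩ := Group.fg_def.1 hG
  have : Injective (fun (φ : G →* Q) (s : (S : Set G)) => φ s) := by
    intro φ ψ h
    refine MonoidHom.eq_of_eqOn_dense hS ?_
    intro s hs
    exact congrFun h ⟨s, hs⟩
  exact Finite.of_injective _ this

/-- every subgroup of finite index of a restricted direct power of a finitely generated group
contains a diagonal copy of the group -/
theorem exists_diag (G : Type*) [Group G] (hG : Group.FG G) (H : Subgroup (RP G))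
    (hH : H.FiniteIndex) : ∃ T : Finset ℤ, T.Nonempty ∧ ∀ g, diag G T g ∈ H := by
  classical
  have := hH
  let N := H.normalCore
  have : Finite (RP G ⧸ N) := Subgroup.finite_quotient_of_finiteIndex
  let π : RP G →* RP G ⧸ N := QuotientGroup.mk' N
  have := finite_hom G (RP G ⧸ N) hG
  obtain ⟨χ, hχ⟩ := Finite.exists_infinite_fiber (fun n : ℤ => π.comp (diag G {n}))
  have hinf : ((fun n : ℤ => π.comp (diag G {n})) ⁻¹' {χ}).Infinite := Set.infinite_coe_iff.1 hχ
  obtain ⟨T, hT1, hT2⟩ := hinf.exists_subset_card_eq (Nat.card (RP G ⧸ N))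
  have key : ∀ U : Finset ℤ, (U : Set ℤ) ⊆ (fun n : ℤ => π.comp (diag G {n})) ⁻¹' {χ} →
      ∀ g, π (diag G U g) = (χ g) ^ U.card := by
    intro U
    induction U using Finset.induction_on with
    | empty =>
      intro _ g
      have : diag G ∅ g = 1 := by
        apply Subtype.ext
        funext n
        rw [diag_apply]
        simp
      rw [this, map_one]
      simp
    | insert n U hn ih =>
      intro hU g
      rw [diag_insert hn, map_mul, ih (fun m hm => hU (by simp [hm])) g,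
        Finset.card_insert_of_notMem hn, pow_succ']
      congr 1
      have h1 : π.comp (diag G {n}) = χ := hU (by simp)
      rw [← h1]
      rfl
  refine ⟨T, ?_, fun g => ?_⟩
  · rw [← Finset.card_pos, hT2]
    exact Nat.card_pos
  · have h1 := key T hT1 g
    rw [hT2, pow_card_eq_one'] at h1
    have h2 : diag G T g ∈ N := (QuotientGroup.eq_one_iff _).1 h1
    exact H.normalCore_le h2

/-! ### Realisation -/

theorem sup_mem_Ico (F : Sup) {u : ℝ} (h0 : 0 ≤ u) (h1 : u < 1) :
    0 ≤ (F : ℝ ≃o ℝ) u ∧ (F : ℝ ≃o ℝ) u < 1 := by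
  have e0 : (F : ℝ ≃o ℝ) 0 = 0 := F.2 0 (by norm_num)
  have e1 : (F : ℝ ≃o ℝ) 1 = 1 := F.2 1 (by norm_num)
  constructor
  · rw [← e0]
    exact (F : ℝ ≃o ℝ).monotone h0
  · rw [← e1]
    exact (F : ℝ ≃o ℝ).strictMono h1

/-- the map acting by `x n` on `[n,n+1]` -/
noncomputable def gf (x : ℤ → Sup) (t : ℝ) : ℝ := ⌊t⌋ + ((x ⌊t⌋ : Sup) : ℝ ≃o ℝ) (Int.fract t)

theorem floor_gf (x : ℤ → Sup) (t : ℝ) : ⌊gf x t⌋ = ⌊t⌋ := by
  have := sup_mem_Ico (x ⌊t⌋) (Int.fract_nonneg t) (Int.fract_lt_one t)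
  rw [Int.floor_eq_iff]
  unfold gf
  constructor <;> linarith [this.1, this.2]

theorem fract_gf (x : ℤ → Sup) (t : ℝ) :
    Int.fract (gf x t) = ((x ⌊t⌋ : Sup) : ℝ ≃o ℝ) (Int.fract t) := by
  unfold Int.fract
  rw [floor_gf]
  unfold gf Int.fract
  ring

theorem gf_mul (x y : ℤ → Sup) (t : ℝ) : gf (x * y) t = gf x (gf y t) := by
  show _ = (⌊gf y t⌋ : ℝ) + ((x ⌊gf y t⌋ : Sup) : ℝ ≃o ℝ) (Int.fract (gf y t))
  rw [floor_gf, fract_gf]
  rfl

theorem gf_one (t : ℝ) : gf 1 t = t := by
  unfold gf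
  exact Int.floor_add_fract t

theorem gf_strictMono (x : ℤ → Sup) : StrictMono (gf x) := by
  intro s t hst
  rcases (Int.floor_mono hst.le).lt_or_eq with h | h
  · have h1 := (sup_mem_Ico (x ⌊s⌋) (Int.fract_nonneg s) (Int.fract_lt_one s)).2
    have h2 := (sup_mem_Ico (x ⌊t⌋) (Int.fract_nonneg t) (Int.fract_lt_one t)).1
    have h3 : (⌊s⌋ : ℝ) + 1 ≤ ⌊t⌋ := by exact_mod_cast h
    unfold gf
    linarith
  · unfold gf
    rw [← h]
    have h1 : Int.fract s < Int.fract t := by
      unfold Int.fract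
      rw [← h]
      linarith
    have := (x ⌊s⌋ : ℝ ≃o ℝ).strictMono h1
    linarith

/-- the homeomorphism acting by `x n` on `[n,n+1]` -/
noncomputable def gl (x : ℤ → Sup) : ℝ ≃o ℝ :=
  StrictMono.orderIsoOfRightInverse (gf x) (gf_strictMono x) (gf x⁻¹)
    (fun t => by rw [← gf_mul, mul_inv_cancel, gf_one])

theorem gl_apply (x : ℤ → Sup) (t : ℝ) : gl x t = gf x t := rfl

/-- the homomorphism -/
noncomputable def glHom : (ℤ → Sup) →* (ℝ ≃o ℝ) where
  toFun := gl
  map_one' := by
    ext t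
    exact gf_one t
  map_mul' x y := by
    ext t
    exact gf_mul x y t

theorem glHom_injective : Injective glHom := by
  intro x y h
  funext n
  apply Subtype.ext
  ext u
  by_cases hu : u ∈ Ioo (1/4 : ℝ) (3/4)
  · have h1 := DFunLike.congr_fun h ((n : ℝ) + u)
    have h2 : ⌊(n : ℝ) + u⌋ = n := by
      rw [Int.floor_eq_iff]
      constructor <;> linarith [hu.1, hu.2]
    have h3 : Int.fract ((n : ℝ) + u) = u := by
      unfold Int.fract
      rw [h2]
      ring
    have h4 : gf x ((n : ℝ) + u) = gf y ((n : ℝ) + u) := h1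
    unfold gf at h4
    rw [h2, h3] at h4
    linarith
  · rw [(x n).2 u hu, (y n).2 u hu]

/-- on `(n - 1/4, n + 1)` the map is given by one formula -/
theorem gf_formula (x : ℤ → Sup) (n : ℤ) {t : ℝ} (h0 : (n : ℝ) - 1/4 < t) (h1 : t < n + 1) :
    gf x t = n + ((x n : Sup) : ℝ ≃o ℝ) (t - n) := by
  rcases lt_or_ge t n with h | h
  · have hfl : ⌊t⌋ = n - 1 := by
      rw [Int.floor_eq_iff]
      push_cast
      constructor <;> linarith
    have hfr : Int.fract t = t - n + 1 := by
      unfold Int.fract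
      rw [hfl]
      push_cast
      ring
    unfold gf
    rw [hfl, hfr, (x (n - 1)).2 _ (fun hh => by linarith [hh.2]),
      (x n).2 _ (fun hh => by linarith [hh.1])]
    push_cast
    ring
  · have hfl : ⌊t⌋ = n := by
      rw [Int.floor_eq_iff]
      constructor <;> linarith
    unfold gf Int.fract
    rw [hfl]

theorem gl_contDiff (r : WithTop ℕ∞) (x : ℤ → Sup) (hx : ∀ n, ContDiff ℝ r (x n : ℝ ≃o ℝ)) :
    ContDiff ℝ r (gl x) := by
  rw [contDiff_iff_contDiffAt]
  intro t
  have h1 : (⌊t⌋ : ℝ) ≤ t := Int.floor_le t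
  have h2 : t < ⌊t⌋ + 1 := Int.lt_floor_add_one t
  have h3 : ContDiffAt ℝ r (fun s : ℝ => (⌊t⌋ : ℝ) + ((x ⌊t⌋ : Sup) : ℝ ≃o ℝ) (s - ⌊t⌋)) t := by
    have := hx ⌊t⌋
    fun_prop
  refine h3.congr_of_eventuallyEq ?_
  have h4 : Ioo ((⌊t⌋ : ℝ) - 1/4) (⌊t⌋ + 1) ∈ 𝓝 t := Ioo_mem_nhds (by linarith) h2
  filter_upwards [h4] with s hs
  exact gf_formula x ⌊t⌋ hs.1 hs.2

theorem gl_supp (x : ℤ → Sup) (hx : {n | x n ≠ 1}.Finite) :
    ∃ A B : ℝ, ∀ t, t ∉ Icc A B → gl x t = t := by
  obtain ⟨M, hM⟩ := hx.bddAbove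
  obtain ⟨L, hL⟩ := hx.bddBelow
  refine ⟨L, M + 1, fun t ht => ?_⟩
  have h1 : x ⌊t⌋ = 1 := by
    by_contra h
    have a1 : ⌊t⌋ ≤ M := hM h
    have a2 : L ≤ ⌊t⌋ := hL h
    apply ht
    have h1 : (⌊t⌋ : ℝ) ≤ t := Int.floor_le t
    have h2 : t < ⌊t⌋ + 1 := Int.lt_floor_add_one t
    have a1' : (⌊t⌋ : ℝ) ≤ M := by exact_mod_cast a1
    have a2' : (L : ℝ) ≤ ⌊t⌋ := by exact_mod_cast a2
    exact ⟨by linarith, by linarith⟩
  rw [gl_apply]
  unfold gf
  rw [h1]
  exact Int.floor_add_fract t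

/-- a smooth coordinate of `(1/4,3/4)` -/
theorem exists_coord : ∃ κ : ℝ → ℝ, IsCoord κ (1/4) (3/4) := by
  obtain ⟨κ, hκ, -⟩ := s_flataff
  refine ⟨fun t => 1/4 + κ t / 2, ?_, ?_, ?_⟩
  · have := hκ.sm
    fun_prop
  · intro t
    have h1 : HasDerivAt κ (deriv κ t) t :=
      ((hκ.sm.differentiable (by simp)) t).hasDerivAt
    have h2 : HasDerivAt (fun t => 1/4 + κ t / 2) (deriv κ t / 2) t :=
      (h1.div_const 2).const_add (1/4)
    rw [h2.deriv]
    have := hκ.pos t
    positivity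
  · ext u
    constructor
    · rintro ⟨t, rfl⟩
      have : κ t ∈ Ioo (0:ℝ) 1 := by rw [← hκ.rng]; exact ⟨t, rfl⟩
      exact ⟨by simp only; linarith [this.1], by simp only; linarith [this.2]⟩
    · intro hu
      have : 2 * (u - 1/4) ∈ range κ := by
        rw [hκ.rng]
        exact ⟨by linarith [hu.1], by linarith [hu.2]⟩
      obtain ⟨t, ht⟩ := this
      exact ⟨t, by simp only [ht]; ring⟩

theorem conj_unique {κ : ℝ → ℝ} {F G G' : ℝ ≃o ℝ} (h : IsConj κ F G) (h' : IsConj κ F G') :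
    G = G' := by
  ext x
  by_cases hx : x ∈ range κ
  · obtain ⟨t, rfl⟩ := hx
    rw [h.inside, h'.inside]
  · rw [h.outside x hx, h'.outside x hx]

theorem conj_mul {κ : ℝ → ℝ} {F F' G G' : ℝ ≃o ℝ} (h : IsConj κ F G) (h' : IsConj κ F' G') :
    IsConj κ (F * F') (G * G') where
  inside t := by rw [RelIso.mul_apply, h'.inside, h.inside]; rfl
  outside x hx := by rw [RelIso.mul_apply, h'.outside x hx, h.outside x hx]

theorem conj_one (κ : ℝ → ℝ) : IsConj κ 1 1 where
  inside _ := rfl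
  outside _ _ := rfl

/-- transport by a coordinate as a homomorphism -/
theorem exists_cj : ∃ (c : (ℝ ≃o ℝ) →* (ℝ ≃o ℝ)), Injective c ∧
    (∀ F, ∀ x, x ∉ Ioo (1/4 : ℝ) (3/4) → c F x = x) ∧
    ∀ (F : ℝ ≃o ℝ) (r : WithTop ℕ∞), r ≤ ∞ → ContDiff ℝ r F →
      (∃ A B : ℝ, ∀ x, x ∉ Icc A B → F x = x) → ContDiff ℝ r (c F) := by
  obtain ⟨κ, hκ⟩ := exists_coord
  have := s_conj κ (1/4) (3/4) hκ
  choose G hG1 hG2 using this
  have hinj : Injective κ := (strictMono_of_deriv_pos hκ.pos).injective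
  refine ⟨⟨⟨G, conj_unique (hG1 1) (conj_one κ)⟩, fun F F' =>
    conj_unique (hG1 (F * F')) (conj_mul (hG1 F) (hG1 F'))⟩, ?_, ?_, ?_⟩
  · intro F F' h
    have h' : G F = G F' := h
    ext t
    apply hinj
    rw [← (hG1 F).inside, ← (hG1 F').inside, h']
  · intro F x hx
    exact (hG1 F).outside x (by rw [hκ.rng]; exact hx)
  · intro F r hr h1 h2
    exact hG2 F r hr h1 h2

/-- the restricted direct power embeds -/
theorem emb_RP {G : Type*} [Group G] (k : ℕ) (h : ∃ φ : G →* CS k, Injective φ) :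
    ∃ φ : RP G →* CS k, Injective φ := by
  obtain ⟨φ, hφ⟩ := h
  obtain ⟨c, hc1, hc2, hc3⟩ := exists_cj
  let ψ : G →* Sup := (Subgroup.inclusion (cs_le_sup k)).comp φ
  have hψ : Injective ψ := (Subgroup.inclusion_injective (cs_le_sup k)).comp hφ
  let P : RP G →* (ℤ → Sup) := (ψ.compLeft ℤ).comp (RP G).subtype
  have hP : Injective P := by
    intro x y hxy
    apply Subtype.ext
    funext n
    exact hψ (congrFun hxy n)
  let T : RP G →* (ℝ ≃o ℝ) := c.comp (glHom.comp P)
  have hT : Injective T := hc1.comp (glHom_injective.comp hP)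
  have hsm : ∀ x : RP G, ContDiff ℝ (k : WithTop ℕ∞) (T x) := by
    intro x
    refine hc3 _ k (by exact_mod_cast le_top) ?_ ?_
    · exact gl_contDiff _ _ (fun n => (φ (x.1 n)).2.2.1)
    · refine gl_supp _ (x.2.subset ?_)
      intro n hn h1
      apply hn
      show ψ (x.1 n) = 1
      rw [h1, map_one]
  have hmem : ∀ x : RP G, T x ∈ CS k := by
    intro x
    refine ⟨fun y hy => hc2 _ y hy, hsm x, ?_⟩
    rw [← map_inv]
    exact hsm _
  exact ⟨T.codRestrict _ hmem, fun x y h => hT (congrArg Subtype.val h)⟩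

end Pool.Agent.Y328.CR
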